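import Pool.Agent.W2helper76.RGO.Final

set_option autoImplicit false

/-!
# The dimension of the random graph order at `p = c/n` is almost surely bounded

For every `c > 0` (in particular for every `c > 1`) there is a constant `D = D(c)` such that the
random graph order `P_{n,c/n}` has dimension at most `D` with probability tending to `1`.  Since the
dimension of a partial order is at least `1`, this means `dim P_{n,c/n} = Θ(1)` almost surely.

Method.  Split the vertices into `M` residue classes.  For a class `C` let `U[C]` be the set of all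
elements above `C`.  If every component of the graph on `U[C]` has at most one cycle, the order on
`U[C]` embeds in a product of six chains (trees need three, one more edge doubles the number) and all
pairs `(x, y)`, `x ∈ C`, are reversed by six linear extensions of the whole order.  A component
with two cycles contains a subdivision of a skeleton with `N` special vertices and `N + 1` edges, at
least `N / 15` of the special vertices being in `C`; the expected number of such subdivisions is
`O(1/n)` if `M` is a large constant.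
-/

namespace Pool.Agent.Results.MP_b735d7_co.BoundedDimension

open Filter Topology Relation
open Pool.Agent.W2helper76.RGO

open Classical in
/-- The probability of the event `Q` for the Erdős–Rényi random graph `G(n,p)` on `Fin n`: the sum
over the graphs `G` with `Q G` of `p ^ e(G) * (1 - p) ^ (binom(n,2) - e(G))`. -/
noncomputable def Pr (n : ℕ) (p : ℝ) (Q : SimpleGraph (Fin n) → Prop) : ℝ :=
  ∑ G : SimpleGraph (Fin n),
    if Q G then p ^ G.edgeSet.ncard * (1 - p) ^ (n.choose 2 - G.edgeSet.ncard) else 0

/-- The order of the graph `G`: `i ≤ j` iff there are `i = i_0 < i_1 < ... < i_k = j`, `k ≥ 0`, with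
all `i_{t-1} i_t` edges of `G`. -/
def graphOrder {n : ℕ} (G : SimpleGraph (Fin n)) : Fin n → Fin n → Prop :=
  ReflTransGen fun i j => i < j ∧ G.Adj i j

/-- `L` is a linear extension of `P`: a linear order containing the relation `P`. -/
structure IsLinearExtension {V : Type} (P L : V → V → Prop) : Prop where
  refl : ∀ x, L x x
  antisymm : ∀ x y, L x y → L y x → x = y
  trans : ∀ x y z, L x y → L y z → L x z
  total : ∀ x y, L x y ∨ L y x
  extends' : ∀ x y, P x y → L x y

/-- The (Dushnik–Miller) dimension of a partial order: the least number `d ≥ 1` such that there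
are `d` linear extensions whose intersection is the order. -/
noncomputable def dim {V : Type} (P : V → V → Prop) : ℕ :=
  sInf {d : ℕ | 1 ≤ d ∧ ∃ L : Fin d → V → V → Prop, (∀ k, IsLinearExtension P (L k)) ∧
    ∀ x y, (∀ k, L k x y) → P x y}

/-- the edges `(i, j)`, `i < j`, of a graph -/
noncomputable def up {n : ℕ} (G : SimpleGraph (Fin n)) : Finset (Fin n × Fin n) := by
  classical exact Finset.univ.filter fun e => e.1 < e.2 ∧ G.Adj e.1 e.2

lemma mem_up {n : ℕ} {G : SimpleGraph (Fin n)} {e : Fin n × Fin n} :
    e ∈ up G ↔ e.1 < e.2 ∧ G.Adj e.1 e.2 := by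
  classical
  unfold up
  simp

lemma up_subset {n : ℕ} (G : SimpleGraph (Fin n)) : up G ⊆ pairs n := fun _ he =>
  Finset.mem_filter.2 ⟨Finset.mem_univ _, (mem_up.1 he).1⟩

lemma ncard_edgeSet {n : ℕ} (G : SimpleGraph (Fin n)) : G.edgeSet.ncard = (up G).card := by
  classical
  have h : G.edgeSet = (fun e : Fin n × Fin n => s(e.1, e.2)) '' (up G : Set (Fin n × Fin n)) := by
    ext e
    induction e using Sym2.ind with
    | _ a b =>
    rw [SimpleGraph.mem_edgeSet, Set.mem_image]
    constructor
    · intro h
      rcases lt_trichotomy a b with hab | hab | hab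
      · exact ⟨(a, b), mem_up.2 ⟨hab, h⟩, rfl⟩
      · exact absurd hab h.ne
      · exact ⟨(b, a), mem_up.2 ⟨hab, h.symm⟩, Sym2.eq_swap⟩
    · rintro ⟨⟨x, y⟩, hxy, hs⟩
      have h2 := (mem_up.1 (Finset.mem_coe.1 hxy)).2
      simp only [Sym2.eq_iff] at hs
      rcases hs with ⟨rfl, rfl⟩ | ⟨rfl, rfl⟩
      · exact h2
      · exact h2.symm
  rw [h, Set.InjOn.ncard_image, Set.ncard_coe_finset]
  intro e he f hf hef
  have h1 := (mem_up.1 (Finset.mem_coe.1 he)).1
  have h2 := (mem_up.1 (Finset.mem_coe.1 hf)).1
  simp only [Sym2.eq_iff] at hef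
  rcases hef with ⟨h3, h4⟩ | ⟨h3, h4⟩
  · exact Prod.ext h3 h4
  · rw [h3, h4] at h1
    exact absurd (h1.trans h2) (lt_irrefl _)

lemma card_pairs (n : ℕ) : (pairs n).card = n.choose 2 := by
  classical
  have h1 : up (⊤ : SimpleGraph (Fin n)) = pairs n := by
    ext e
    rw [mem_up]
    unfold pairs
    rw [Finset.mem_filter]
    constructor
    · exact fun h => ⟨Finset.mem_univ _, h.1⟩
    · exact fun h => ⟨h.2, by rw [SimpleGraph.top_adj]; exact h.2.ne⟩
  rw [← h1, ← ncard_edgeSet]
  have h2 := SimpleGraph.card_edgeFinset_top_eq_card_choose_two (V := Fin n)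
  rw [Fintype.card_fin] at h2
  rw [← h2, ← SimpleGraph.coe_edgeFinset, Set.ncard_coe_finset]

/-- the graph of a set of pairs -/
def ofPairs {n : ℕ} (E : Finset (Fin n × Fin n)) : SimpleGraph (Fin n) :=
  SimpleGraph.fromRel fun i j => (i, j) ∈ E

lemma up_ofPairs {n : ℕ} {E : Finset (Fin n × Fin n)} (hE : E ⊆ pairs n) : up (ofPairs E) = E := by
  ext ⟨a, b⟩
  rw [mem_up, ofPairs, SimpleGraph.fromRel_adj]
  constructor
  · rintro ⟨h1, _, h2 | h2⟩
    · exact h2
    · have := (Finset.mem_filter.1 (hE h2)).2
      exact absurd (h1.trans this) (lt_irrefl _)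
  · intro h
    have := (Finset.mem_filter.1 (hE h)).2
    exact ⟨this, ne_of_lt this, Or.inl h⟩

lemma ofPairs_up {n : ℕ} (G : SimpleGraph (Fin n)) : ofPairs (up G) = G := by
  ext a b
  rw [ofPairs, SimpleGraph.fromRel_adj, mem_up, mem_up]
  constructor
  · rintro ⟨_, h | h⟩
    · exact h.2
    · exact h.2.symm
  · intro h
    refine ⟨h.ne, ?_⟩
    rcases lt_or_gt_of_ne h.ne with hab | hab
    · exact Or.inl ⟨hab, h⟩
    · exact Or.inr ⟨hab, h.symm⟩

lemma Pr_eq {n : ℕ} (p : ℝ) (Q : SimpleGraph (Fin n) → Prop) :
    Pr n p Q = prob n p (fun E => Q (ofPairs E)) := by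
  classical
  unfold Pr prob wt
  refine Finset.sum_bij' (fun G _ => up G) (fun E _ => ofPairs E) ?_ ?_ ?_ ?_ ?_
  · intro G _
    exact Finset.mem_powerset.2 (up_subset G)
  · intro E _
    exact Finset.mem_univ _
  · intro G _
    exact ofPairs_up G
  · intro E hE
    exact up_ofPairs (Finset.mem_powerset.1 hE)
  · intro G _
    simp only [ofPairs_up, ncard_edgeSet, card_pairs]

lemma graphOrder_eq {n : ℕ} (G : SimpleGraph (Fin n)) : graphOrder G = Le (rel (up G)) := by
  unfold graphOrder Le rel
  congr 1
  ext i j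
  rw [mem_up]

/-- an embedding in a product of chains gives a realizer -/
lemma dim_le {n D : ℕ} (hD : 1 ≤ D) {G : SimpleGraph (Fin n)} (h : Embeds n D (up G)) :
    1 ≤ dim (graphOrder G) ∧ dim (graphOrder G) ≤ D := by
  obtain ⟨f, hf1, hf2⟩ := h
  have hmem : D ∈ {d : ℕ | 1 ≤ d ∧ ∃ L : Fin d → Fin n → Fin n → Prop,
      (∀ k, IsLinearExtension (graphOrder G) (L k)) ∧
        ∀ x y, (∀ k, L k x y) → graphOrder G x y} := by
    refine ⟨hD, fun k x y => toLex (f k x, x) ≤ toLex (f k y, y), fun k => ?_, ?_⟩
    · refine ⟨fun x => le_refl _, fun x y hxy hyx => ?_, fun x y z hxy hyz => hxy.trans hyz,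
        fun x y => le_total _ _, fun x y hxy => ?_⟩
      · have := le_antisymm hxy hyx
        have h2 : (f k x, x) = (f k y, y) := toLex.injective this
        exact congrArg Prod.snd h2
      · rw [graphOrder_eq] at hxy
        induction hxy with
        | refl => exact le_refl _
        | tail _ h2 ih =>
          refine ih.trans ?_
          rw [Prod.Lex.toLex_le_toLex]
          rename_i a b _
          have h3 := hf1 k a b h2
          rcases lt_or_eq_of_le h3 with h4 | h4
          · exact Or.inl h4
          · exact Or.inr ⟨h4, (mem_up.1 h2).1.le⟩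
    · intro x y hxy
      rw [graphOrder_eq]
      apply hf2
      intro k
      have : toLex (f k x, x) ≤ toLex (f k y, y) := hxy k
      rw [Prod.Lex.toLex_le_toLex] at this
      rcases this with h4 | ⟨h4, _⟩
      · exact h4.le
      · exact h4.le
  refine ⟨?_, Nat.sInf_le hmem⟩
  exact (Nat.sInf_mem ⟨D, hmem⟩).1

/-- **The dimension of `P_{n,c/n}` is almost surely bounded.**  For every `c > 0` there is a
constant `D` such that `1 ≤ dim P_{n,c/n} ≤ D` with probability tending to `1` as `n → ∞`. -/
theorem result (c : ℝ) (hc : 0 < c) : ∃ D : ℕ,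
    Tendsto (fun n : ℕ => Pr n (c / n) fun G =>
      1 ≤ dim (graphOrder G) ∧ dim (graphOrder G) ≤ D) atTop (𝓝 1) := by
  classical
  obtain ⟨M, hM0, hM⟩ := main_bound hc.le
  refine ⟨M * 6, ?_⟩
  have hev : ∀ᶠ n : ℕ in atTop, M ≤ n ∧ c ≤ n := by
    refine (eventually_ge_atTop M).and ?_
    obtain ⟨m, hm⟩ := exists_nat_ge c
    filter_upwards [eventually_ge_atTop m] with n hn
    have : (m : ℝ) ≤ n := by exact_mod_cast hn
    linarith
  have hlow : Tendsto (fun n : ℕ => 1 - M * (c * Real.exp (c + 1)) / (n : ℝ)) atTop (𝓝 1) := by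
    have h1 : Tendsto (fun n : ℕ => M * (c * Real.exp (c + 1)) / (n : ℝ)) atTop (𝓝 0) :=
      tendsto_const_div_atTop_nhds_zero_nat _
    simpa using h1.const_sub 1
  refine tendsto_of_tendsto_of_tendsto_of_le_of_le' hlow tendsto_const_nhds ?_ ?_
  · filter_upwards [hev] with n hn
    refine (hM n hn.1 hn.2).trans ?_
    rw [Pr_eq]
    have hn0 : 0 < n := lt_of_lt_of_le hM0 hn.1
    have hnr : (0:ℝ) < n := by exact_mod_cast hn0
    have hp0 : 0 ≤ c / n := by positivity
    have hp1 : c / n ≤ 1 := by rw [div_le_one hnr]; exact hn.2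
    unfold prob
    refine Finset.sum_le_sum fun E hE => ?_
    have hw := wt_nonneg hp0 hp1 E
    split_ifs with h1 h2 h2
    · exact le_refl _
    · exfalso
      apply h2
      apply dim_le (by omega)
      rw [up_ofPairs (Finset.mem_powerset.1 hE)]
      exact h1
    · exact hw
    · exact le_refl _
  · filter_upwards [hev] with n hn
    rw [Pr_eq]
    have hn0 : 0 < n := lt_of_lt_of_le hM0 hn.1
    have hnr : (0:ℝ) < n := by exact_mod_cast hn0
    have hp0 : 0 ≤ c / n := by positivity
    have hp1 : c / n ≤ 1 := by rw [div_le_one hnr]; exact hn.2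
    rw [← sum_wt n (c / n)]
    unfold prob
    refine Finset.sum_le_sum fun E _ => ?_
    split_ifs
    · exact le_refl _
    · exact wt_nonneg hp0 hp1 E

end Pool.Agent.Results.MP_b735d7_co.BoundedDimension
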